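import Pool.Agent.Helper33.IR.Goals

/-!
# Packet NZFIN of project IR (MP_6829b3_nt): thresholds are not on the orbit
-/

set_option autoImplicit false

namespace Pool.Agent.Helper13.IR

open Pool.Agent.Helper33.IR

theorem val_Th3 (t : ℚ) (ht : t ∈ Th3) : 0 < t ∧ padicValRat 3 t = 0 := by
  have : Fact (Nat.Prime 3) := ⟨Nat.prime_three⟩
  have key : ∀ a b : ℕ, ¬ 3 ∣ a → ¬ 3 ∣ b → padicValRat 3 ((a : ℚ) / (b : ℚ)) = 0 := by
    intro a b ha hb
    have ha0 : (a : ℚ) ≠ 0 := by
      intro h
      apply ha
      have : a = 0 := by exact_mod_cast h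
      rw [this]
      exact dvd_zero 3
    have hb0 : (b : ℚ) ≠ 0 := by
      intro h
      apply hb
      have : b = 0 := by exact_mod_cast h
      rw [this]
      exact dvd_zero 3
    rw [padicValRat.div ha0 hb0, padicValRat.of_nat, padicValRat.of_nat,
      padicValNat.eq_zero_of_not_dvd ha, padicValNat.eq_zero_of_not_dvd hb]
    simp
  simp only [Th3, Finset.mem_insert, Finset.mem_singleton] at ht
  rcases ht with h | h | h | h | h
  · subst h
    refine ⟨by norm_num, ?_⟩
    have := key 1 1 (by decide) (by decide)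
    simpa using this
  · subst h
    refine ⟨by norm_num, ?_⟩
    have := key 5 4 (by decide) (by decide)
    simpa using this
  · subst h
    refine ⟨by norm_num, ?_⟩
    have := key 8 5 (by decide) (by decide)
    simpa using this
  · subst h
    refine ⟨by norm_num, ?_⟩
    have := key 2 1 (by decide) (by decide)
    simpa using this
  · subst h
    refine ⟨by norm_num, ?_⟩
    have := key 4 1 (by decide) (by decide)
    simpa using this

theorem gNZ : G_NZ := by
  intro c m t hc ht heq
  have : Fact (Nat.Prime 3) := ⟨Nat.prime_three⟩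
  obtain ⟨htpos, hval⟩ := val_Th3 t ht
  have htR : (0 : ℝ) < (t : ℝ) := by exact_mod_cast htpos
  unfold lin at heq
  have h1 : Real.log ((3 : ℝ) ^ c) = Real.log ((4 : ℝ) ^ m * (t : ℝ)) := by
    rw [Real.log_mul (by positivity) htR.ne', Real.log_zpow, Real.log_zpow]
    linarith
  have h2 : ((3 : ℝ) ^ c) = ((4 : ℝ) ^ m * (t : ℝ)) :=
    Real.log_injOn_pos (by simp only [Set.mem_Ioi]; positivity)
      (by simp only [Set.mem_Ioi]; positivity) h1
  have h3 : ((3 : ℚ) ^ c) = ((4 : ℚ) ^ m * t) := by
    apply Rat.cast_injective (α := ℝ)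
    push_cast
    exact h2
  have h4 := congrArg (padicValRat 3) h3
  have h40 : (4 : ℚ) ^ m ≠ 0 := by positivity
  rw [padicValRat.mul h40 htpos.ne', hval, padicValRat.zpow, padicValRat.zpow] at h4
  have h5 : padicValRat 3 (3 : ℚ) = 1 := by
    have := padicValRat.self (p := 3) (by norm_num)
    exact_mod_cast this
  have h6 : padicValRat 3 (4 : ℚ) = 0 := by
    exact (val_Th3 4 (by simp [Th3])).2
  rw [h5, h6] at h4
  apply hc
  linarith

theorem common_eps (P : ℚ → ℝ → Prop) (hmono : ∀ t e e', e' ≤ e → P t e → P t e')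
    (s : Finset ℚ) (h : ∀ t ∈ s, ∃ e : ℝ, 0 < e ∧ P t e) :
    ∃ e : ℝ, 0 < e ∧ ∀ t ∈ s, P t e := by
  classical
  induction s using Finset.induction_on with
  | empty => exact ⟨1, one_pos, by simp⟩
  | insert a s ha ih =>
    obtain ⟨e1, he1, h1⟩ := ih (fun t ht => h t (Finset.mem_insert_of_mem ht))
    obtain ⟨e2, he2, h2⟩ := h a (Finset.mem_insert_self a s)
    refine ⟨min e1 e2, lt_min he1 he2, ?_⟩
    intro t ht
    rcases Finset.mem_insert.1 ht with rfl | ht
    · exact hmono _ _ _ (min_le_right _ _) h2
    · exact hmono _ _ _ (min_le_left _ _) (h1 t ht)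

theorem gFIN : G_FIN := by
  intro c hc
  have hlog4 : 0 < Real.log 4 := Real.log_pos (by norm_num)
  obtain ⟨eps, heps, H⟩ := common_eps
    (fun t e => ∀ m0 : ℤ, 2 * e ≤ |lin c m0 - Real.log (t : ℝ)|)
    (by
      intro t e e' hee h m0
      have := h m0
      linarith) Th3
    (by
      intro t ht
      set y : ℝ := (c * Real.log 3 - Real.log (t : ℝ)) / Real.log 4 with hy
      have hform : ∀ m0 : ℤ, lin c m0 - Real.log (t : ℝ) = Real.log 4 * (y - m0) := by
        intro m0
        unfold lin
        rw [hy]
        field_simp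
        ring
      have hne : y - (round y : ℤ) ≠ 0 := by
        intro h0
        have h1 := gNZ c (round y) t hc ht
        apply h1
        have h2 := hform (round y)
        rw [h0, mul_zero] at h2
        linarith
      refine ⟨Real.log 4 * |y - (round y : ℤ)| / 2, by positivity, ?_⟩
      intro m0
      rw [hform m0, abs_mul, abs_of_pos hlog4]
      have h3 := round_le y m0
      have h4 := mul_le_mul_of_nonneg_left h3 hlog4.le
      linarith)
  refine ⟨eps, heps, ?_⟩
  rintro q p q' p' hB hsm t ht b hb ⟨m, hm, hneg⟩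
  set x : ℝ := lin b m - Real.log (t : ℝ) with hx
  set eta : ℝ := lin q p with heta
  have hxe : |x| < |eta| := by
    rcases lt_trichotomy x 0 with h0 | h0 | h0
    · have h1 : 0 < x + eta := by
        by_contra hcon
        push Not at hcon
        nlinarith
      rw [abs_of_neg h0, abs_of_pos (by linarith)]
      linarith
    · rw [h0] at hneg
      simp at hneg
    · have h1 : x + eta < 0 := by
        by_contra hcon
        push Not at hcon
        nlinarith
      rw [abs_of_pos h0, abs_of_neg (by linarith)]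
      linarith
  have hsplit : lin c (m - p') - Real.log (t : ℝ) = x - lin q' p' := by
    rw [hx]
    unfold lin
    have hbR : (((b : ℕ) : ℤ) : ℝ) = ((q' : ℕ) : ℝ) + (c : ℝ) := by
      rw [hb]
      push_cast
      ring
    rw [hbR]
    push_cast
    ring
  have h1 := H t ht (m - p')
  rw [hsplit] at h1
  have h2 : |x - lin q' p'| ≤ |x| + |lin q' p'| := abs_sub _ _
  have h3 := hB.better
  linarith

end Pool.Agent.Helper13.IR
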